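import Mathlib

open Set Filter Topology MeasureTheory intervalIntegral

namespace Pool.Agent.Results.MP_6d9676_an.VolumeInfinity

/-- The radial Laplacian of `ℝ⁴`: for a radial function `f(x) = f(r)`, `r = |x|`,
`Δ f = f'' + (3 / r) f'`. -/
noncomputable def radialLaplacian (f : ℝ → ℝ) (r : ℝ) : ℝ :=
  deriv (deriv f) r + 3 / r * deriv f r

/-- `u` is a radial solution of the initial value problem on the interval `I`, which is `[0, ∞)`
or `[0, R)`: `u` is of class `C⁴` on `I` (one-sided at `0`), `Δ² u = -6 e^{4u}` at every `r > 0`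
in `I`, and `u(0) = u'(0) = u'''(0) = 0`, `u''(0) = a`. -/
structure IsSolution (I : Set ℝ) (a : ℝ) (u : ℝ → ℝ) : Prop where
  /-- `u` is of class `C⁴` on `I`. -/
  contDiffOn : ContDiffOn ℝ 4 u I
  /-- the differential equation. -/
  eqn : ∀ r ∈ I, 0 < r → radialLaplacian (radialLaplacian u) r = -6 * Real.exp (4 * u r)
  /-- `u(0) = 0`. -/
  value : u 0 = 0
  /-- `u'(0) = 0`. -/
  deriv_one : iteratedDerivWithin 1 u I 0 = 0
  /-- `u''(0) = a`. -/
  deriv_two : iteratedDerivWithin 2 u I 0 = a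
  /-- `u'''(0) = 0`. -/
  deriv_three : iteratedDerivWithin 3 u I 0 = 0

/-- The volume `∫_{ℝ⁴} e^{4 u(|x|)} dx` of the conformal metric `e^{2u} |dx|²` on `ℝ⁴`, a number
in `[0, ∞]`. -/
noncomputable def confVolume (u : ℝ → ℝ) : ENNReal :=
  ∫⁻ x : EuclideanSpace ℝ (Fin 4), ENNReal.ofReal (Real.exp (4 * u ‖x‖))

/-- `A j f r = ∫_0^1 s^(3+j) f(r s) ds`. -/
noncomputable def A (j : ℕ) (f : ℝ → ℝ) (r : ℝ) : ℝ :=
  ∫ s in (0:ℝ)..1, s ^ (3 + j) * f (r * s)

/-- the inverse of the radial Laplacian. -/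
noncomputable def K (f : ℝ → ℝ) (r : ℝ) : ℝ := ∫ q in (0:ℝ)..r, q * A 0 f q

lemma A_continuous {f : ℝ → ℝ} (hf : Continuous f) (j : ℕ) : Continuous (A j f) := by
  unfold A
  apply intervalIntegral.continuous_parametric_intervalIntegral_of_continuous'
  fun_prop

lemma A_hasDerivAt {f : ℝ → ℝ} (hf : ContDiff ℝ 1 f) (j : ℕ) (r : ℝ) :
    HasDerivAt (A j f) (A (j + 1) (deriv f) r) r := by
  have hfd : Continuous (deriv f) := hf.continuous_deriv le_rfl
  have hfc : Continuous f := hf.continuous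
  obtain ⟨M, hM⟩ := (isCompact_Icc (a := -(|r| + 1)) (b := |r| + 1)).exists_bound_of_continuousOn
    hfd.continuousOn
  have := intervalIntegral.hasDerivAt_integral_of_dominated_loc_of_deriv_le
    (μ := volume) (a := (0:ℝ)) (b := 1) (F := fun x s => s ^ (3 + j) * f (x * s))
    (F' := fun x s => s ^ (3 + (j + 1)) * deriv f (x * s)) (x₀ := r) (s := Metric.ball r 1)
    (bound := fun _ => M) (Metric.ball_mem_nhds _ one_pos)
    (Eventually.of_forall fun x => (by fun_prop : Continuous fun s => s ^ (3 + j) * f (x * s)).aestronglyMeasurable)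
    ((by fun_prop : Continuous fun s => s ^ (3 + j) * f (r * s)).intervalIntegrable _ _)
    ((by fun_prop : Continuous fun s => s ^ (3 + (j + 1)) * deriv f (r * s)).aestronglyMeasurable)
    (Eventually.of_forall fun t ht x hx => by
      rw [uIoc_of_le zero_le_one] at ht
      have hx' : |x| ≤ |r| + 1 := by
        have h1 := Metric.mem_ball.1 hx
        rw [Real.dist_eq] at h1
        have := abs_sub_abs_le_abs_sub x r
        linarith
      have hxt : |x * t| ≤ |r| + 1 := by
        rw [abs_mul, abs_of_pos ht.1]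
        nlinarith [abs_nonneg x, ht.1, ht.2]
      have h2 := hM (x * t) ⟨by linarith [neg_abs_le (x * t)], by linarith [le_abs_self (x * t)]⟩
      rw [norm_mul, norm_pow]
      have h3 : ‖t‖ ^ (3 + (j + 1)) ≤ 1 := by
        apply pow_le_one₀ (norm_nonneg _)
        rw [Real.norm_eq_abs, abs_of_pos ht.1]
        exact ht.2
      calc ‖t‖ ^ (3 + (j + 1)) * ‖deriv f (x * t)‖ ≤ 1 * ‖deriv f (x * t)‖ := by gcongr
        _ ≤ M := by simpa using h2)
    (intervalIntegrable_const)
    (Eventually.of_forall fun t ht x hx => by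
      have h1 : HasDerivAt f (deriv f (x * t)) (x * t) :=
        ((hf.differentiable one_ne_zero) _).hasDerivAt
      have h2 : HasDerivAt (fun x : ℝ => x * t) t x := hasDerivAt_mul_const t
      have h3 := (h1.comp x h2).const_mul (t ^ (3 + j))
      refine h3.congr_deriv ?_
      rw [pow_add _ 3 (j + 1), pow_add _ 3 j, pow_succ]
      ring)
  exact this.2

lemma A_contDiff (n : ℕ) : ∀ (j : ℕ) {f : ℝ → ℝ}, ContDiff ℝ n f → ContDiff ℝ n (A j f) := by
  induction n with
  | zero =>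
    intro j f hf
    exact contDiff_zero.2 (A_continuous hf.continuous j)
  | succ n ih =>
    intro j f hf
    have h1 : ContDiff ℝ 1 f := hf.of_le (by exact_mod_cast Nat.le_add_left 1 n)
    have hd : deriv (A j f) = A (j + 1) (deriv f) := funext fun r => (A_hasDerivAt h1 j r).deriv
    push_cast
    rw [contDiff_succ_iff_deriv]
    refine ⟨fun r => (A_hasDerivAt h1 j r).differentiableAt, by simp, ?_⟩
    rw [hd]
    apply ih
    have : ContDiff ℝ ((n : WithTop ℕ∞) + 1) f := by exact_mod_cast hf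
    exact (contDiff_succ_iff_deriv.1 this).2.2

lemma A_zero (f : ℝ → ℝ) (j : ℕ) : A j f 0 = f 0 / (4 + j) := by
  unfold A
  simp only [zero_mul, intervalIntegral.integral_mul_const, integral_pow]
  have : (3 + j + 1) ≠ 0 := by omega
  field_simp
  push_cast
  ring

lemma A_eq {f : ℝ → ℝ} {r : ℝ} (hr : r ≠ 0) :
    A 0 f r = (r ^ 4)⁻¹ * ∫ t in (0:ℝ)..r, t ^ 3 * f t := by
  unfold A
  have := intervalIntegral.integral_comp_mul_left (a := 0) (b := 1) (fun t => t ^ 3 * f t) hr
  simp only [mul_zero, mul_one, smul_eq_mul] at this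
  have h2 : ∫ s in (0:ℝ)..1, (r * s) ^ 3 * f (r * s) = r ^ 3 * ∫ s in (0:ℝ)..1, s ^ (3 + 0) * f (r * s) := by
    rw [← intervalIntegral.integral_const_mul]
    congr 1
    funext s
    ring
  rw [h2] at this
  field_simp at this ⊢
  linear_combination this

lemma rA_hasDerivAt {f : ℝ → ℝ} (hf : Continuous f) (r : ℝ) :
    HasDerivAt (fun r => r * A 0 f r) (f r - 3 * A 0 f r) r := by
  by_cases hr : r = 0
  · subst hr
    rw [A_zero]
    have h1 : f 0 - 3 * (f 0 / (4 + ((0:ℕ):ℝ))) = A 0 f 0 := by rw [A_zero]; push_cast; ring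
    rw [h1, hasDerivAt_iff_tendsto_slope]
    have h2 : Tendsto (A 0 f) (𝓝[≠] 0) (𝓝 (A 0 f 0)) :=
      ((A_continuous hf 0).tendsto 0).mono_left nhdsWithin_le_nhds
    refine h2.congr' ?_
    filter_upwards [self_mem_nhdsWithin] with x hx
    have hx' : x ≠ 0 := hx
    rw [slope_def_field]
    field_simp
    ring
  · have h1 : HasDerivAt (fun r => ∫ t in (0:ℝ)..r, t ^ 3 * f t) (r ^ 3 * f r) r := by
      have hc : Continuous fun t => t ^ 3 * f t := by fun_prop
      exact intervalIntegral.integral_hasDerivAt_right (hc.intervalIntegrable _ _)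
        (hc.stronglyMeasurableAtFilter _ _) hc.continuousAt
    have h2 : HasDerivAt (fun r : ℝ => (r ^ 3)⁻¹) (-(3 * r ^ 2) / (r ^ 3) ^ 2) r := by
      have := (hasDerivAt_pow 3 r).inv (pow_ne_zero 3 hr)
      exact this
    have h3 := h2.mul h1
    have h4 : (fun r => r * A 0 f r) =ᶠ[𝓝 r]
        (fun r => (r ^ 3)⁻¹ * ∫ t in (0:ℝ)..r, t ^ 3 * f t) := by
      filter_upwards [isOpen_ne.mem_nhds hr] with x hx
      have hx' : x ≠ 0 := hx
      rw [A_eq hx']
      field_simp
    refine (h3.congr_of_eventuallyEq h4).congr_deriv ?_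
    rw [A_eq hr]
    field_simp
    ring

lemma K_hasDerivAt {f : ℝ → ℝ} (hf : Continuous f) (r : ℝ) :
    HasDerivAt (K f) (r * A 0 f r) r := by
  have hc : Continuous fun q => q * A 0 f q := by
    have := A_continuous hf 0
    fun_prop
  exact intervalIntegral.integral_hasDerivAt_right (hc.intervalIntegrable _ _)
        (hc.stronglyMeasurableAtFilter _ _) hc.continuousAt

lemma K_contDiff {f : ℝ → ℝ} {n : ℕ} (hf : ContDiff ℝ n f) : ContDiff ℝ (n + 2 : ℕ) (K f) := by
  have hfc := hf.continuous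
  have h1 : deriv (K f) = fun r => r * A 0 f r := funext fun r => (K_hasDerivAt hfc r).deriv
  have h2 : deriv (fun r => r * A 0 f r) = fun r => f r - 3 * A 0 f r :=
    funext fun r => (rA_hasDerivAt hfc r).deriv
  have e : ((n + 2 : ℕ) : WithTop ℕ∞) = (n + 1 : WithTop ℕ∞) + 1 := by
    push_cast
    rw [add_assoc, one_add_one_eq_two]
  rw [e, contDiff_succ_iff_deriv]
  refine ⟨fun r => (K_hasDerivAt hfc r).differentiableAt, by simp, ?_⟩
  rw [h1, contDiff_succ_iff_deriv]
  refine ⟨fun r => (rA_hasDerivAt hfc r).differentiableAt, by simp, ?_⟩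
  rw [h2]
  exact hf.sub (contDiff_const.mul (A_contDiff n 0 hf))

/-- weight -/
noncomputable def om (b r : ℝ) : ℝ := Real.exp (Real.exp (b * r ^ 2))

lemma om_pos (b r : ℝ) : 0 < om b r := Real.exp_pos _

lemma om_continuous (b : ℝ) : Continuous (om b) := by
  unfold om
  fun_prop

lemma om_hasDerivAt (b r : ℝ) :
    HasDerivAt (om b) (2 * b * (r * Real.exp (b * r ^ 2) * om b r)) r := by
  have h1 : HasDerivAt (fun r : ℝ => b * r ^ 2) (b * (2 * r)) r := by
    simpa using (hasDerivAt_pow 2 r).const_mul b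
  have h2 := h1.exp.exp
  refine h2.congr_deriv ?_
  unfold om
  ring

lemma A_abs_le {f : ℝ → ℝ} {r B : ℝ} (hf : Continuous f) (hr : 0 ≤ r)
    (h : ∀ s ∈ Icc 0 r, |f s| ≤ B) : |A 0 f r| ≤ B / 4 := by
  unfold A
  have hc : Continuous fun s => s ^ (3 + 0) * f (r * s) := by fun_prop
  calc |∫ s in (0:ℝ)..1, s ^ (3 + 0) * f (r * s)|
      ≤ ∫ s in (0:ℝ)..1, |s ^ (3 + 0) * f (r * s)| :=
        intervalIntegral.abs_integral_le_integral_abs zero_le_one
    _ ≤ ∫ s in (0:ℝ)..1, s ^ 3 * B := by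
        refine intervalIntegral.integral_mono_on zero_le_one (hc.abs.intervalIntegrable _ _)
          ((by fun_prop : Continuous fun s : ℝ => s ^ 3 * B).intervalIntegrable _ _) ?_
        intro s hs
        rw [abs_mul, abs_of_nonneg (by have := hs.1; positivity)]
        have := h (r * s) ⟨mul_nonneg hr hs.1, by nlinarith [hs.1, hs.2]⟩
        have h3 : (0:ℝ) ≤ s ^ 3 := by have := hs.1; positivity
        simpa using mul_le_mul_of_nonneg_left this h3
    _ = B / 4 := by
        simp only [intervalIntegral.integral_mul_const, integral_pow]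
        norm_num
        ring

lemma A_nonneg {f : ℝ → ℝ} {r : ℝ} (hr : 0 ≤ r)
    (h : ∀ s ∈ Icc 0 r, 0 ≤ f s) : 0 ≤ A 0 f r := by
  unfold A
  refine intervalIntegral.integral_nonneg zero_le_one ?_
  intro s hs
  have := h (r * s) ⟨mul_nonneg hr hs.1, by nlinarith [hs.1, hs.2]⟩
  have h3 : (0:ℝ) ≤ s ^ (3 + 0) := by have := hs.1; positivity
  positivity

lemma A_mono {f g : ℝ → ℝ} {r : ℝ} (hf : Continuous f) (hg : Continuous g) (hr : 0 ≤ r)
    (h : ∀ s ∈ Icc 0 r, f s ≤ g s) : A 0 f r ≤ A 0 g r := by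
  unfold A
  refine intervalIntegral.integral_mono_on zero_le_one
    ((by fun_prop : Continuous fun s => s ^ (3 + 0) * f (r * s)).intervalIntegrable _ _)
    ((by fun_prop : Continuous fun s => s ^ (3 + 0) * g (r * s)).intervalIntegrable _ _) ?_
  intro s hs
  have := h (r * s) ⟨mul_nonneg hr hs.1, by nlinarith [hs.1, hs.2]⟩
  have h3 : (0:ℝ) ≤ s ^ (3 + 0) := by have := hs.1; positivity
  exact mul_le_mul_of_nonneg_left this h3

lemma A_congr {f g : ℝ → ℝ} {r : ℝ} (hr : 0 ≤ r)
    (h : ∀ s ∈ Icc 0 r, f s = g s) : A 0 f r = A 0 g r := by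
  unfold A
  refine intervalIntegral.integral_congr ?_
  intro s hs
  rw [uIcc_of_le zero_le_one] at hs
  simp only
  rw [h (r * s) ⟨mul_nonneg hr hs.1, by nlinarith [hs.1, hs.2]⟩]

lemma A_const (c r : ℝ) : A 0 (fun _ => c) r = c / 4 := by
  unfold A
  simp only [intervalIntegral.integral_mul_const, integral_pow]
  norm_num
  ring

lemma A_sub {f g : ℝ → ℝ} (hf : Continuous f) (hg : Continuous g) (r : ℝ) :
    A 0 (fun s => f s - g s) r = A 0 f r - A 0 g r := by
  unfold A
  rw [← intervalIntegral.integral_sub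
    ((by fun_prop : Continuous fun s => s ^ (3 + 0) * f (r * s)).intervalIntegrable _ _)
    ((by fun_prop : Continuous fun s => s ^ (3 + 0) * g (r * s)).intervalIntegrable _ _)]
  congr 1
  funext s
  ring

lemma A_const_mul (f : ℝ → ℝ) (c r : ℝ) :
    A 0 (fun s => c * f s) r = c * A 0 f r := by
  unfold A
  rw [← intervalIntegral.integral_const_mul]
  congr 1
  funext s
  ring

lemma K_congr {f g : ℝ → ℝ} {r : ℝ} (hr : 0 ≤ r)
    (h : ∀ s ∈ Icc 0 r, f s = g s) : K f r = K g r := by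
  unfold K
  refine intervalIntegral.integral_congr ?_
  intro s hs
  rw [uIcc_of_le hr] at hs
  simp only
  rw [A_congr hs.1 fun q hq => h q ⟨hq.1, hq.2.trans hs.2⟩]

lemma K_zero (f : ℝ → ℝ) : K f 0 = 0 := by simp [K]

lemma K_continuous {f : ℝ → ℝ} (hf : Continuous f) : Continuous (K f) :=
  continuous_iff_continuousAt.2 fun r => (K_hasDerivAt hf r).continuousAt

lemma K_sub {f g : ℝ → ℝ} (hf : Continuous f) (hg : Continuous g) (r : ℝ) :
    K (fun s => f s - g s) r = K f r - K g r := by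
  unfold K
  have h1 := A_continuous hf 0
  have h2 := A_continuous hg 0
  rw [← intervalIntegral.integral_sub
    ((by fun_prop : Continuous fun q => q * A 0 f q).intervalIntegrable _ _)
    ((by fun_prop : Continuous fun q => q * A 0 g q).intervalIntegrable _ _)]
  congr 1
  funext s
  rw [A_sub hf hg]
  ring

lemma K_const_mul (f : ℝ → ℝ) (c r : ℝ) :
    K (fun s => c * f s) r = c * K f r := by
  unfold K
  rw [← intervalIntegral.integral_const_mul]
  congr 1
  funext s
  rw [A_const_mul]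
  ring

lemma K_const (c r : ℝ) : K (fun _ => c) r = c * r ^ 2 / 8 := by
  unfold K
  simp only [A_const, intervalIntegral.integral_mul_const, integral_id]
  ring

lemma K_nonneg {f : ℝ → ℝ} {r : ℝ} (hr : 0 ≤ r)
    (h : ∀ s ∈ Icc 0 r, 0 ≤ f s) : 0 ≤ K f r := by
  unfold K
  refine intervalIntegral.integral_nonneg hr ?_
  intro s hs
  exact mul_nonneg hs.1 (A_nonneg hs.1 fun q hq => h q ⟨hq.1, hq.2.trans hs.2⟩)

lemma K_mono {f g : ℝ → ℝ} {r : ℝ} (hf : Continuous f) (hg : Continuous g) (hr : 0 ≤ r)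
    (h : ∀ s ∈ Icc 0 r, f s ≤ g s) : K f r ≤ K g r := by
  have := K_nonneg (f := fun s => g s - f s) hr fun s hs => sub_nonneg.2 (h s hs)
  rw [K_sub hg hf] at this
  linarith

lemma exp_mono_aux {b s q : ℝ} (hb : 0 < b) (hs : 0 ≤ s) (hq : s ≤ q) :
    Real.exp (b * s ^ 2) ≤ Real.exp (b * q ^ 2) := by
  apply Real.exp_le_exp.2
  have : s ^ 2 ≤ q ^ 2 := by gcongr
  nlinarith

lemma om_mono {b s q : ℝ} (hb : 0 < b) (hs : 0 ≤ s) (hq : s ≤ q) : om b s ≤ om b q :=
  Real.exp_le_exp.2 (exp_mono_aux hb hs hq)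

lemma K_abs_le {f : ℝ → ℝ} {b c R : ℝ} (hb : 0 < b) (hc : 0 ≤ c) (hf : Continuous f)
    (hR : 0 ≤ R) (h : ∀ q ∈ Icc 0 R, |f q| ≤ 4 * c * Real.exp (b * q ^ 2) * om b q) :
    |K f R| ≤ c / (2 * b) * om b R := by
  unfold K
  have hA := A_continuous hf 0
  have hq : Continuous fun q => q * A 0 f q := by fun_prop
  have ho := om_continuous b
  calc |∫ q in (0:ℝ)..R, q * A 0 f q| ≤ ∫ q in (0:ℝ)..R, |q * A 0 f q| :=
        intervalIntegral.abs_integral_le_integral_abs hR
    _ ≤ ∫ q in (0:ℝ)..R, c / (2 * b) * (2 * b * (q * Real.exp (b * q ^ 2) * om b q)) := by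
        refine intervalIntegral.integral_mono_on hR (hq.abs.intervalIntegrable _ _)
          ((by fun_prop : Continuous fun q : ℝ =>
            c / (2 * b) * (2 * b * (q * Real.exp (b * q ^ 2) * om b q))).intervalIntegrable _ _) ?_
        intro q hq
        have h1 : |A 0 f q| ≤ (4 * c * Real.exp (b * q ^ 2) * om b q) / 4 := by
          apply A_abs_le hf hq.1
          intro s hs
          refine (h s ⟨hs.1, hs.2.trans hq.2⟩).trans ?_
          have e1 := exp_mono_aux hb hs.1 hs.2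
          have e2 := om_mono hb hs.1 hs.2
          have e3 := om_pos b s
          have e4 := Real.exp_pos (b * q ^ 2)
          gcongr
        rw [abs_mul, abs_of_nonneg hq.1]
        calc q * |A 0 f q| ≤ q * ((4 * c * Real.exp (b * q ^ 2) * om b q) / 4) :=
              mul_le_mul_of_nonneg_left h1 hq.1
          _ = c / (2 * b) * (2 * b * (q * Real.exp (b * q ^ 2) * om b q)) := by
              field_simp
    _ = c / (2 * b) * (om b R - om b 0) := by
        rw [intervalIntegral.integral_const_mul]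
        congr 1
        refine intervalIntegral.integral_eq_sub_of_hasDerivAt (fun x _ => om_hasDerivAt b x) ?_
        exact ((by fun_prop : Continuous fun q : ℝ =>
            (2 * b * (q * Real.exp (b * q ^ 2) * om b q))).intervalIntegrable _ _)
    _ ≤ c / (2 * b) * om b R := by
        have := om_pos b 0
        gcongr
        linarith

lemma KK_abs_le {f : ℝ → ℝ} {b c R : ℝ} (hb : 1 ≤ b) (hc : 0 ≤ c) (hf : Continuous f)
    (hR : 0 ≤ R) (h : ∀ q ∈ Icc 0 R, |f q| ≤ 4 * c * Real.exp (b * q ^ 2) * om b q) :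
    |K (K f) R| ≤ c / 16 * om b R := by
  have hb0 : 0 < b := by linarith
  have h1 : |K (K f) R| ≤ (c / (8 * b)) / (2 * b) * om b R := by
    apply K_abs_le hb0 (by positivity) (K_continuous hf) hR
    intro q hq
    have h2 := K_abs_le hb0 hc hf hq.1 fun s hs => h s ⟨hs.1, hs.2.trans hq.2⟩
    refine h2.trans ?_
    have h3 : 1 ≤ Real.exp (b * q ^ 2) := Real.one_le_exp (by positivity)
    have h4 := om_pos b q
    calc c / (2 * b) * om b q = 4 * (c / (8 * b)) * 1 * om b q := by
          field_simp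
          ring
      _ ≤ 4 * (c / (8 * b)) * Real.exp (b * q ^ 2) * om b q := by gcongr
  refine h1.trans ?_
  have h4 := om_pos b R
  have : c / (8 * b) / (2 * b) ≤ c / 16 := by
    rw [div_div, div_le_div_iff₀ (by positivity) (by positivity)]
    nlinarith [mul_le_mul hb hb zero_le_one (by linarith)]
  gcongr

/-- truncated nonlinearity -/
noncomputable def Ft (a s x : ℝ) : ℝ := Real.exp (4 * min x (|a| * s ^ 2 / 2))

lemma Ft_continuous (a : ℝ) {u : ℝ → ℝ} (hu : Continuous u) : Continuous fun s => Ft a s (u s) := by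
  unfold Ft
  fun_prop

lemma exp_lip {x y m : ℝ} (hx : x ≤ m) (hy : y ≤ m) :
    |Real.exp (4 * x) - Real.exp (4 * y)| ≤ 4 * Real.exp (4 * m) * |x - y| := by
  wlog hxy : y ≤ x generalizing x y
  · rw [abs_sub_comm, abs_sub_comm x y]
    exact this hy hx (by linarith)
  have h1 : Real.exp (4 * y) ≤ Real.exp (4 * x) := Real.exp_le_exp.2 (by linarith)
  rw [abs_of_nonneg (by linarith), abs_of_nonneg (by linarith)]
  have h2 : 4 * (y - x) + 1 ≤ Real.exp (4 * (y - x)) := Real.add_one_le_exp _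
  have h3 : Real.exp (4 * y) = Real.exp (4 * x) * Real.exp (4 * (y - x)) := by
    rw [← Real.exp_add]
    congr 1
    ring
  have h4 : Real.exp (4 * x) ≤ Real.exp (4 * m) := Real.exp_le_exp.2 (by linarith)
  have h5 := Real.exp_pos (4 * x)
  rw [h3]
  calc Real.exp (4 * x) - Real.exp (4 * x) * Real.exp (4 * (y - x))
      ≤ Real.exp (4 * x) * (4 * (x - y)) := by nlinarith
    _ ≤ Real.exp (4 * m) * (4 * (x - y)) := by
        have : 0 ≤ 4 * (x - y) := by linarith
        gcongr
    _ = 4 * Real.exp (4 * m) * (x - y) := by ring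

lemma Ft_lip (a s x y : ℝ) :
    |Ft a s x - Ft a s y| ≤ 4 * Real.exp (2 * |a| * s ^ 2) * |x - y| := by
  unfold Ft
  have h1 := exp_lip (min_le_right x (|a| * s ^ 2 / 2)) (min_le_right y (|a| * s ^ 2 / 2))
  have h2 : |min x (|a| * s ^ 2 / 2) - min y (|a| * s ^ 2 / 2)| ≤ |x - y| := by
    have := abs_min_sub_min_le_max x (|a| * s ^ 2 / 2) y (|a| * s ^ 2 / 2)
    simpa using this
  have e : 4 * (|a| * s ^ 2 / 2) = 2 * |a| * s ^ 2 := by ring
  rw [e] at h1
  exact h1.trans (by gcongr)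

lemma Ft_pos (a s x : ℝ) : 0 < Ft a s x := Real.exp_pos _

lemma Ft_le (a s x : ℝ) : Ft a s x ≤ Real.exp (2 * |a| * s ^ 2) := by
  unfold Ft
  apply Real.exp_le_exp.2
  have := min_le_right x (|a| * s ^ 2 / 2)
  linarith

lemma exp_le_aux (a s : ℝ) : Real.exp (2 * |a| * s ^ 2) ≤ Real.exp ((2 * |a| + 1) * s ^ 2) := by
  apply Real.exp_le_exp.2
  nlinarith [sq_nonneg s]

lemma one_le_om (b s : ℝ) : 1 ≤ om b s := Real.one_le_exp (Real.exp_pos _).le

open BoundedContinuousFunction in
/-- the fixed point operator -/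
lemma exists_fixed (a : ℝ) : ∃ u : ℝ → ℝ, Continuous u ∧
    ∀ r, u r = a * r ^ 2 / 2 - 6 * K (K fun s => Ft a s (u s)) |r| := by
  set b : ℝ := 2 * |a| + 1 with hb
  have hb1 : 1 ≤ b := by
    have := abs_nonneg a
    linarith
  have hom := om_continuous b
  -- the source
  have hFc : ∀ y : ℝ →ᵇ ℝ, Continuous fun s => Ft a s (om b s * y s) := fun y =>
    Ft_continuous a (hom.mul y.continuous)
  have hGc : ∀ y : ℝ →ᵇ ℝ, Continuous fun r =>
      (a * r ^ 2 / 2 - 6 * K (K fun s => Ft a s (om b s * y s)) (|r|)) / om b r := by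
    intro y
    have h1 := K_continuous (K_continuous (hFc y))
    refine Continuous.div ?_ hom fun x => (om_pos b x).ne'
    exact Continuous.sub (by fun_prop) ((h1.comp continuous_abs).const_mul 6 |>.congr fun x => rfl)
  have hbound : ∀ (y : ℝ →ᵇ ℝ) (r : ℝ),
      ‖(a * r ^ 2 / 2 - 6 * K (K fun s => Ft a s (om b s * y s)) (|r|)) / om b r‖ ≤ 2 := by
    intro y r
    have ho := om_pos b r
    rw [norm_div, Real.norm_eq_abs, Real.norm_eq_abs, abs_of_pos ho, div_le_iff₀ ho]
    have hom_abs : om b |r| = om b r := by unfold om; rw [sq_abs]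
    have h1 : |K (K fun s => Ft a s (om b s * y s)) (|r|)| ≤ 1 / 16 * om b |r| := by
      apply KK_abs_le hb1 zero_le_one (hFc y) (abs_nonneg r)
      intro q _
      rw [abs_of_pos (Ft_pos _ _ _)]
      calc Ft a q (om b q * y q) ≤ Real.exp (2 * |a| * q ^ 2) := Ft_le _ _ _
        _ ≤ Real.exp (b * q ^ 2) := exp_le_aux a q
        _ = 1 * 1 * Real.exp (b * q ^ 2) * 1 := by ring
        _ ≤ 4 * 1 * Real.exp (b * q ^ 2) * om b q := by
            have := one_le_om b q
            gcongr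
            norm_num
    have h2 : |a * r ^ 2 / 2| ≤ om b r := by
      have e1 : |a * r ^ 2 / 2| = |a| * r ^ 2 / 2 := by
        rw [abs_div, abs_mul, abs_of_nonneg (sq_nonneg r)]
        norm_num
      rw [e1]
      have e2 : b * r ^ 2 ≤ Real.exp (b * r ^ 2) := by
        have := Real.add_one_le_exp (b * r ^ 2)
        linarith
      have e3 : Real.exp (b * r ^ 2) ≤ om b r := by
        have := Real.add_one_le_exp (Real.exp (b * r ^ 2))
        unfold om
        linarith
      have e4 : |a| * r ^ 2 / 2 ≤ b * r ^ 2 := by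
        rw [hb]
        nlinarith [sq_nonneg r, abs_nonneg a, mul_nonneg (abs_nonneg a) (sq_nonneg r)]
      linarith
    rw [hom_abs] at h1
    calc |a * r ^ 2 / 2 - 6 * K (K fun s => Ft a s (om b s * y s)) (|r|)|
        ≤ |a * r ^ 2 / 2| + |6 * K (K fun s => Ft a s (om b s * y s)) (|r|)| := abs_sub _ _
      _ = |a * r ^ 2 / 2| + 6 * |K (K fun s => Ft a s (om b s * y s)) (|r|)| := by
          rw [abs_mul]
          norm_num
      _ ≤ om b r + 6 * (1 / 16 * om b r) := by gcongr
      _ ≤ 2 * om b r := by linarith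
  let G : (ℝ →ᵇ ℝ) → (ℝ →ᵇ ℝ) := fun y =>
    BoundedContinuousFunction.ofNormedAddCommGroup _ (hGc y) 2 (hbound y)
  have hGv : ∀ y r, G y r = (a * r ^ 2 / 2 - 6 * K (K fun s => Ft a s (om b s * y s)) (|r|)) / om b r :=
    fun y r => rfl
  have hlip : ∀ y z, dist (G y) (G z) ≤ 3 / 8 * dist y z := by
    intro y z
    rw [BoundedContinuousFunction.dist_le (by positivity)]
    intro r
    rw [hGv, hGv, Real.dist_eq, ← sub_div, abs_div, abs_of_pos (om_pos b r),
      div_le_iff₀ (om_pos b r)]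
    have hom_abs : om b |r| = om b r := by unfold om; rw [sq_abs]
    have h1 : |K (K fun s => Ft a s (om b s * y s) - Ft a s (om b s * z s)) (|r|)| ≤
        dist y z / 16 * om b |r| := by
      apply KK_abs_le hb1 dist_nonneg ((hFc y).sub (hFc z)) (abs_nonneg r)
      intro q _
      calc |Ft a q (om b q * y q) - Ft a q (om b q * z q)|
          ≤ 4 * Real.exp (2 * |a| * q ^ 2) * |om b q * y q - om b q * z q| := Ft_lip _ _ _ _
        _ = 4 * Real.exp (2 * |a| * q ^ 2) * (om b q * dist (y q) (z q)) := by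
            rw [← mul_sub, abs_mul, abs_of_pos (om_pos b q), Real.dist_eq]
        _ ≤ 4 * Real.exp (b * q ^ 2) * (om b q * dist y z) := by
            have h3 := exp_le_aux a q
            have h4 := BoundedContinuousFunction.dist_coe_le_dist (f := y) (g := z) q
            have h5 := om_pos b q
            gcongr
        _ = 4 * dist y z * Real.exp (b * q ^ 2) * om b q := by ring
    have h2 : K (K fun s => Ft a s (om b s * y s) - Ft a s (om b s * z s)) (|r|) =
        K (K fun s => Ft a s (om b s * y s)) (|r|) - K (K fun s => Ft a s (om b s * z s)) |r| := by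
      rw [← K_sub (K_continuous (hFc y)) (K_continuous (hFc z))]
      congr 1
      funext s
      rw [K_sub (hFc y) (hFc z)]
    rw [h2, hom_abs] at h1
    have h3 : |a * r ^ 2 / 2 - 6 * K (K fun s => Ft a s (om b s * y s)) (|r|) -
        (a * r ^ 2 / 2 - 6 * K (K fun s => Ft a s (om b s * z s)) (|r|))| =
        6 * |K (K fun s => Ft a s (om b s * y s)) (|r|) -
          K (K fun s => Ft a s (om b s * z s)) (|r|)| := by
      rw [show a * r ^ 2 / 2 - 6 * K (K fun s => Ft a s (om b s * y s)) (|r|) -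
        (a * r ^ 2 / 2 - 6 * K (K fun s => Ft a s (om b s * z s)) (|r|)) =
        -6 * (K (K fun s => Ft a s (om b s * y s)) (|r|) -
          K (K fun s => Ft a s (om b s * z s)) (|r|)) by ring, abs_mul]
      norm_num
    rw [h3]
    linarith
  have hcon : ContractingWith (3 / 8 : NNReal) G := by
    refine ⟨by rw [← NNReal.coe_lt_coe]; push_cast; norm_num, LipschitzWith.of_dist_le_mul fun y z => ?_⟩
    simpa using hlip y z
  have hfix := hcon.fixedPoint_isFixedPt
  set y := ContractingWith.fixedPoint G hcon with hy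
  refine ⟨fun r => om b r * y r, hom.mul y.continuous, fun r => ?_⟩
  have h1 : G y r = y r := by rw [hfix]
  rw [hGv] at h1
  have h2 := (om_pos b r).ne'
  simp only
  rw [← h1]
  field_simp

/-- the integral form of the problem. -/
structure IntSol (a : ℝ) (E W U : ℝ → ℝ) : Prop where
  hE : Continuous E
  hW : ∀ r, W r = 4 * a - 6 * K E r
  hU : ∀ r, U r = K W r
  hEU : ∀ r, 0 ≤ r → E r = Real.exp (4 * U r)

lemma exists_intSol (a : ℝ) : ∃ E W U, IntSol a E W U := by
  obtain ⟨u, hu, hfix⟩ := exists_fixed a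
  have hle : ∀ s, u s ≤ |a| * s ^ 2 / 2 := by
    intro s
    rw [hfix s]
    have h1 : 0 ≤ K (K fun s => Ft a s (u s)) |s| :=
      K_nonneg (abs_nonneg s) fun q hq => K_nonneg hq.1 fun p _ => (Ft_pos _ _ _).le
    have h2 : a * s ^ 2 / 2 ≤ |a| * s ^ 2 / 2 := by
      have := le_abs_self a
      gcongr
    linarith
  have hF : (fun s => Ft a s (u s)) = fun s => Real.exp (4 * u s) := by
    funext s
    unfold Ft
    rw [min_eq_left (hle s)]
  have hE : Continuous fun s => Real.exp (4 * u s) := by fun_prop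
  refine ⟨fun s => Real.exp (4 * u s), fun r => 4 * a - 6 * K (fun s => Real.exp (4 * u s)) r,
    K fun r => 4 * a - 6 * K (fun s => Real.exp (4 * u s)) r, hE, fun r => rfl, fun r => rfl, ?_⟩
  intro r hr
  congr 2
  rw [K_sub continuous_const ((K_continuous hE).const_mul 6 |>.congr fun x => rfl), K_const,
    K_const_mul, hfix r, abs_of_nonneg hr, hF]
  ring


namespace IntSol

variable {a : ℝ} {E W U : ℝ → ℝ}

lemma W_eq (h : IntSol a E W U) : W = fun r => 4 * a - 6 * K E r := funext h.hW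

lemma U_eq (h : IntSol a E W U) : U = K W := funext h.hU

lemma W_contDiff (h : IntSol a E W U) : ContDiff ℝ 2 W := by
  rw [h.W_eq]
  have := K_contDiff (n := 0) (f := E) (contDiff_zero.2 h.hE)
  exact contDiff_const.sub (contDiff_const.mul this)

lemma W_cont (h : IntSol a E W U) : Continuous W := h.W_contDiff.continuous

lemma U_contDiff (h : IntSol a E W U) : ContDiff ℝ 4 U := by
  rw [h.U_eq]
  exact K_contDiff (n := 2) h.W_contDiff

lemma W_hasDerivAt (h : IntSol a E W U) (r : ℝ) : HasDerivAt W (-6 * (r * A 0 E r)) r := by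
  rw [h.W_eq]
  have := ((K_hasDerivAt h.hE r).const_mul 6).const_sub (4 * a)
  refine this.congr_deriv ?_
  ring

lemma deriv_W (h : IntSol a E W U) : deriv W = fun r => -6 * (r * A 0 E r) :=
  funext fun r => (h.W_hasDerivAt r).deriv

lemma W'_hasDerivAt (h : IntSol a E W U) (r : ℝ) :
    HasDerivAt (deriv W) (-6 * (E r - 3 * A 0 E r)) r := by
  rw [h.deriv_W]
  exact (rA_hasDerivAt h.hE r).const_mul (-6)

lemma W_zero (h : IntSol a E W U) : W 0 = 4 * a := by
  rw [h.hW, K_zero]
  ring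

lemma U_zero (h : IntSol a E W U) : U 0 = 0 := by
  rw [h.hU, K_zero]

lemma U_hasDerivAt (h : IntSol a E W U) (r : ℝ) : HasDerivAt U (r * A 0 W r) r := by
  rw [h.U_eq]
  exact K_hasDerivAt h.W_cont r

lemma deriv_U (h : IntSol a E W U) : deriv U = fun r => r * A 0 W r :=
  funext fun r => (h.U_hasDerivAt r).deriv

lemma deriv_deriv_U (h : IntSol a E W U) : deriv (deriv U) = fun r => W r - 3 * A 0 W r := by
  rw [h.deriv_U]
  exact funext fun r => (rA_hasDerivAt h.W_cont r).deriv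

lemma deriv3_U_zero (h : IntSol a E W U) : deriv (deriv (deriv U)) 0 = 0 := by
  rw [h.deriv_deriv_U]
  have h1 : ContDiff ℝ 1 W := h.W_contDiff.of_le (by norm_num)
  have h2 := (h.W_hasDerivAt 0).sub ((A_hasDerivAt h1 0 0).const_mul 3)
  have h3 := h2.deriv
  have h4 : deriv (fun r => W r - 3 * A 0 W r) 0 = _ := h3
  rw [h4]
  simp only [A_zero, h.deriv_W]
  ring

lemma lap_U (h : IntSol a E W U) {r : ℝ} (hr : r ≠ 0) : radialLaplacian U r = W r := by
  unfold radialLaplacian
  rw [h.deriv_deriv_U, h.deriv_U]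
  field_simp
  ring

lemma lap_lap_U (h : IntSol a E W U) {r : ℝ} (hr : r ≠ 0) :
    radialLaplacian (radialLaplacian U) r = -6 * E r := by
  have h1 : radialLaplacian U =ᶠ[𝓝 r] W := by
    filter_upwards [isOpen_ne.mem_nhds hr] with x hx using h.lap_U hx
  have h2 : deriv (radialLaplacian U) =ᶠ[𝓝 r] deriv W := h1.deriv
  unfold radialLaplacian at *
  rw [h2.deriv_eq, h2.eq_of_nhds, (h.W'_hasDerivAt r).deriv, h.deriv_W]
  field_simp
  ring

lemma isSolution (h : IntSol a E W U) {I : Set ℝ} (hI : UniqueDiffOn ℝ I) (h0 : (0:ℝ) ∈ I) :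
    IsSolution I a U := by
  have hc := h.U_contDiff
  refine ⟨hc.contDiffOn, ?_, h.U_zero, ?_, ?_, ?_⟩
  · intro r _ hr
    rw [h.lap_lap_U hr.ne', h.hEU r hr.le]
  · rw [iteratedDerivWithin_eq_iteratedDeriv hI (hc.of_le (by norm_num)).contDiffAt h0,
      iteratedDeriv_one, h.deriv_U]
    simp
  · rw [iteratedDerivWithin_eq_iteratedDeriv hI (hc.of_le (by norm_num)).contDiffAt h0,
      iteratedDeriv_succ, iteratedDeriv_one, h.deriv_deriv_U]
    simp only
    rw [A_zero, h.W_zero]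
    push_cast
    ring
  · rw [iteratedDerivWithin_eq_iteratedDeriv hI (hc.of_le (by norm_num)).contDiffAt h0,
      iteratedDeriv_succ, iteratedDeriv_succ, iteratedDeriv_one, h.deriv3_U_zero]

end IntSol

/-- two integral solutions on `[0, R]` agree. -/
lemma int_unique {a R : ℝ} {E₁ W₁ U₁ E₂ W₂ U₂ : ℝ → ℝ} (hR : 0 ≤ R)
    (hE₁ : Continuous E₁) (hE₂ : Continuous E₂)
    (hW₁ : ∀ r, W₁ r = 4 * a - 6 * K E₁ r) (hW₂ : ∀ r, W₂ r = 4 * a - 6 * K E₂ r)
    (hU₁ : ∀ r, U₁ r = K W₁ r) (hU₂ : ∀ r, U₂ r = K W₂ r)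
    (h₁ : ∀ r ∈ Icc 0 R, E₁ r = Real.exp (4 * U₁ r))
    (h₂ : ∀ r ∈ Icc 0 R, E₂ r = Real.exp (4 * U₂ r)) :
    ∀ r ∈ Icc 0 R, U₁ r = U₂ r := by
  set b : ℝ := 2 * |a| + 1 with hb
  have hb1 : 1 ≤ b := by
    have := abs_nonneg a
    linarith
  have form : ∀ {E W U : ℝ → ℝ}, Continuous E → (∀ r, W r = 4 * a - 6 * K E r) →
      (∀ r, U r = K W r) → ∀ r, U r = a * r ^ 2 / 2 - 6 * K (K E) r := by
    intro E W U hE hW hU r
    rw [hU, funext hW, K_sub continuous_const
      ((K_continuous hE).const_mul 6 |>.congr fun x => rfl), K_const, K_const_mul]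
    ring
  have up : ∀ {E W U : ℝ → ℝ}, Continuous E → (∀ r, W r = 4 * a - 6 * K E r) →
      (∀ r, U r = K W r) → (∀ r ∈ Icc 0 R, E r = Real.exp (4 * U r)) →
      ∀ r ∈ Icc 0 R, U r ≤ |a| * r ^ 2 / 2 := by
    intro E W U hE hW hU hEU r hr
    rw [form hE hW hU r]
    have h1 : 0 ≤ K (K E) r := K_nonneg hr.1 fun q hq => K_nonneg hq.1 fun p hp => by
      rw [hEU p ⟨hp.1, hp.2.trans (hq.2.trans hr.2)⟩]
      exact (Real.exp_pos _).le
    have h2 : a * r ^ 2 / 2 ≤ |a| * r ^ 2 / 2 := by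
      have := le_abs_self a
      gcongr
    linarith
  have f1 := form hE₁ hW₁ hU₁
  have f2 := form hE₂ hW₂ hU₂
  have u1 := up hE₁ hW₁ hU₁ h₁
  have u2 := up hE₂ hW₂ hU₂ h₂
  have c1 : Continuous U₁ := by
    rw [funext f1]
    have := K_continuous (K_continuous hE₁)
    fun_prop
  have c2 : Continuous U₂ := by
    rw [funext f2]
    have := K_continuous (K_continuous hE₂)
    fun_prop
  have hom := om_continuous b
  obtain ⟨x₀, hx₀, hmax⟩ := isCompact_Icc.exists_isMaxOn (nonempty_Icc.2 hR)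
    (f := fun s => |U₁ s - U₂ s| / om b s)
    ((Continuous.div (c1.sub c2).abs hom fun x => (om_pos b x).ne').continuousOn)
  set S := |U₁ x₀ - U₂ x₀| / om b x₀ with hS
  have hS0 : 0 ≤ S := div_nonneg (abs_nonneg _) (om_pos _ _).le
  have hle : ∀ s ∈ Icc 0 R, |U₁ s - U₂ s| ≤ S * om b s := by
    intro s hs
    have : |U₁ s - U₂ s| / om b s ≤ S := hmax hs
    rwa [div_le_iff₀ (om_pos b s)] at this
  have hKK : |K (K fun s => E₁ s - E₂ s) x₀| ≤ S / 16 * om b x₀ := by
    apply KK_abs_le hb1 hS0 (hE₁.sub hE₂) hx₀.1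
    intro q hq
    have hq' : q ∈ Icc 0 R := ⟨hq.1, hq.2.trans hx₀.2⟩
    change |E₁ q - E₂ q| ≤ _
    rw [h₁ q hq', h₂ q hq']
    have h3 := exp_lip (u1 q hq') (u2 q hq')
    have e : 4 * (|a| * q ^ 2 / 2) = 2 * |a| * q ^ 2 := by ring
    rw [e] at h3
    have h4 := exp_le_aux a q
    have h5 := hle q hq'
    calc _ ≤ _ := h3
      _ ≤ 4 * Real.exp (b * q ^ 2) * (S * om b q) := by gcongr
      _ = 4 * S * Real.exp (b * q ^ 2) * om b q := by ring
  have hD : U₁ x₀ - U₂ x₀ = -6 * K (K fun s => E₁ s - E₂ s) x₀ := by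
    have h6 : K (K fun s => E₁ s - E₂ s) x₀ = K (K E₁) x₀ - K (K E₂) x₀ := by
      rw [← K_sub (K_continuous hE₁) (K_continuous hE₂)]
      congr 1
      funext s
      rw [K_sub hE₁ hE₂]
    rw [h6, f1, f2]
    ring
  have hSle : S ≤ 3 / 8 * S := by
    rw [hS, div_le_iff₀ (om_pos b x₀), ← hS, hD, abs_mul]
    norm_num
    linarith
  have hS1 : S = 0 := by linarith
  intro r hr
  have := hle r hr
  rw [hS1, zero_mul] at this
  have := abs_nonpos_iff.1 this
  linarith

/-- radial harmonic functions in dimension four which vanish at the origin. -/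
lemma liouville {R : ℝ} (hR : 0 < R) {y y' y'' : ℝ → ℝ}
    (h1 : ∀ r ∈ Ioo 0 R, HasDerivAt y (y' r) r) (h2 : ∀ r ∈ Ioo 0 R, HasDerivAt y' (y'' r) r)
    (heq : ∀ r ∈ Ioo 0 R, y'' r + 3 / r * y' r = 0)
    (hlim : Tendsto y (𝓝[>] 0) (𝓝 0)) : ∀ r ∈ Ioo 0 R, y r = 0 := by
  have hz : ∀ r ∈ Ioo 0 R, HasDerivAt (fun r => r ^ 3 * y' r) 0 r := by
    intro r hr
    have hr0 : r ≠ 0 := hr.1.ne'
    have := (hasDerivAt_pow 3 r).mul (h2 r hr)
    refine this.congr_deriv ?_
    have h3 := heq r hr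
    push_cast
    field_simp at h3
    linear_combination r ^ 2 * h3
  obtain ⟨c, hc⟩ := isOpen_Ioo.exists_is_const_of_deriv_eq_zero isPreconnected_Ioo
    (f := fun r : ℝ => r ^ 3 * y' r) (s := Ioo 0 R)
    (fun r hr => (hz r hr).differentiableAt.differentiableWithinAt)
    (fun r hr => (hz r hr).deriv)
  have ht : ∀ r ∈ Ioo 0 R, HasDerivAt (fun r => y r + c / 2 * (r ^ 2)⁻¹) 0 r := by
    intro r hr
    have hr0 : r ≠ 0 := hr.1.ne'
    have h3 := ((hasDerivAt_pow 2 r).inv (pow_ne_zero 2 hr0)).const_mul (c / 2)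
    have h4 := (h1 r hr).add h3
    refine h4.congr_deriv ?_
    have h5 := hc r hr
    rw [← h5]
    push_cast
    field_simp
    ring
  obtain ⟨d, hd⟩ := isOpen_Ioo.exists_is_const_of_deriv_eq_zero isPreconnected_Ioo
    (f := fun r : ℝ => y r + c / 2 * (r ^ 2)⁻¹) (s := Ioo 0 R)
    (fun r hr => (ht r hr).differentiableAt.differentiableWithinAt)
    (fun r hr => (ht r hr).deriv)
  have hmem : Ioo 0 R ∈ 𝓝[>] (0:ℝ) := Ioo_mem_nhdsGT hR
  have hid : Tendsto (fun r : ℝ => r ^ 2) (𝓝[>] 0) (𝓝 0) := by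
    have : Tendsto (fun r : ℝ => r ^ 2) (𝓝 0) (𝓝 (0 ^ 2)) := (continuous_pow 2).tendsto 0
    simp only [ne_eq, OfNat.ofNat_ne_zero, not_false_eq_true, zero_pow] at this
    exact this.mono_left nhdsWithin_le_nhds
  have hc0 : c = 0 := by
    have t1 : Tendsto (fun r : ℝ => r ^ 2 * y r + c / 2) (𝓝[>] 0) (𝓝 (0 * 0 + c / 2)) :=
      (hid.mul hlim).add_const _
    have t2 : Tendsto (fun r : ℝ => r ^ 2 * d) (𝓝[>] 0) (𝓝 (0 * d)) := hid.mul_const d
    have t3 : (fun r : ℝ => r ^ 2 * y r + c / 2) =ᶠ[𝓝[>] 0] fun r : ℝ => r ^ 2 * d := by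
      filter_upwards [hmem] with r hr
      have hr0 : r ≠ 0 := hr.1.ne'
      have := hd r hr
      rw [← this]
      field_simp
    have := tendsto_nhds_unique (t1.congr' t3) t2
    linarith
  subst hc0
  have hd0 : d = 0 := by
    have t3 : y =ᶠ[𝓝[>] 0] fun _ => d := by
      filter_upwards [hmem] with r hr
      have := hd r hr
      rw [← this]
      ring
    have := tendsto_nhds_unique (hlim.congr' t3) tendsto_const_nhds
    exact this.symm
  subst hd0
  intro r hr
  have := hd r hr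
  simpa using this

namespace IsSolution

variable {a R : ℝ} {v : ℝ → ℝ}

lemma mem_nhds' {r : ℝ} (hr : r ∈ Ioo 0 R) : Ico 0 R ∈ 𝓝 r :=
  mem_of_superset (isOpen_Ioo.mem_nhds hr) Ioo_subset_Ico_self

lemma contDiffOn_Ioo (h : IsSolution (Ico 0 R) a v) : ContDiffOn ℝ 4 v (Ioo 0 R) :=
  h.contDiffOn.mono Ioo_subset_Ico_self

lemma cd1 (h : IsSolution (Ico 0 R) a v) : ContDiffOn ℝ 3 (deriv v) (Ioo 0 R) := by
  have := h.contDiffOn_Ioo
  rw [show (4 : WithTop ℕ∞) = 3 + 1 by norm_num] at this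
  exact ((contDiffOn_succ_iff_deriv_of_isOpen isOpen_Ioo).1 this).2.2

lemma cd2 (h : IsSolution (Ico 0 R) a v) : ContDiffOn ℝ 2 (deriv (deriv v)) (Ioo 0 R) := by
  have := h.cd1
  rw [show (3 : WithTop ℕ∞) = 2 + 1 by norm_num] at this
  exact ((contDiffOn_succ_iff_deriv_of_isOpen isOpen_Ioo).1 this).2.2

lemma cdlap (h : IsSolution (Ico 0 R) a v) : ContDiffOn ℝ 2 (radialLaplacian v) (Ioo 0 R) := by
  unfold radialLaplacian
  refine h.cd2.add (ContDiffOn.mul ?_ (h.cd1.of_le (by norm_num)))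
  exact contDiffOn_const.div contDiffOn_id fun x hx => hx.1.ne'

lemma lap_hasDerivAt (h : IsSolution (Ico 0 R) a v) {r : ℝ} (hr : r ∈ Ioo 0 R) :
    HasDerivAt (radialLaplacian v) (deriv (radialLaplacian v) r) r :=
  ((h.cdlap.differentiableOn (by norm_num) r hr).differentiableAt
    (isOpen_Ioo.mem_nhds hr)).hasDerivAt

lemma lap_hasDerivAt' (h : IsSolution (Ico 0 R) a v) {r : ℝ} (hr : r ∈ Ioo 0 R) :
    HasDerivAt (deriv (radialLaplacian v)) (deriv (deriv (radialLaplacian v)) r) r := by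
  have := h.cdlap
  rw [show (2 : WithTop ℕ∞) = 1 + 1 by norm_num] at this
  have h2 := ((contDiffOn_succ_iff_deriv_of_isOpen isOpen_Ioo).1 this).2.2
  exact ((h2.differentiableOn (by norm_num) r hr).differentiableAt
    (isOpen_Ioo.mem_nhds hr)).hasDerivAt

lemma hasDerivAt₁ (h : IsSolution (Ico 0 R) a v) {r : ℝ} (hr : r ∈ Ioo 0 R) :
    HasDerivAt v (deriv v r) r :=
  ((h.contDiffOn_Ioo.differentiableOn (by norm_num) r hr).differentiableAt
    (isOpen_Ioo.mem_nhds hr)).hasDerivAt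

lemma hasDerivAt₂ (h : IsSolution (Ico 0 R) a v) {r : ℝ} (hr : r ∈ Ioo 0 R) :
    HasDerivAt (deriv v) (deriv (deriv v) r) r :=
  ((h.cd1.differentiableOn (by norm_num) r hr).differentiableAt
    (isOpen_Ioo.mem_nhds hr)).hasDerivAt

lemma lap_tendsto (h : IsSolution (Ico 0 R) a v) (hR : 0 < R) :
    Tendsto (radialLaplacian v) (𝓝[>] 0) (𝓝 (4 * a)) := by
  have hI : UniqueDiffOn ℝ (Ico 0 R) := uniqueDiffOn_Ico 0 R
  have h0 : (0:ℝ) ∈ Ico 0 R := ⟨le_rfl, hR⟩
  set d1 := derivWithin v (Ico 0 R) with hd1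
  have e1 : iteratedDerivWithin 1 v (Ico 0 R) = d1 := by
    funext x
    rw [iteratedDerivWithin_one]
  have e2 : iteratedDerivWithin 2 v (Ico 0 R) = derivWithin d1 (Ico 0 R) := by
    funext x
    rw [iteratedDerivWithin_succ, e1]
  have hmem : Ioo 0 R ∈ 𝓝[>] (0:ℝ) := Ioo_mem_nhdsGT hR
  have g1 : ∀ r ∈ Ioo 0 R, deriv v r = d1 r := fun r hr =>
    (derivWithin_of_mem_nhds (mem_nhds' hr)).symm
  have g2 : ∀ r ∈ Ioo 0 R, deriv (deriv v) r = derivWithin d1 (Ico 0 R) r := by
    intro r hr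
    rw [derivWithin_of_mem_nhds (mem_nhds' hr)]
    apply Filter.EventuallyEq.deriv_eq
    filter_upwards [isOpen_Ioo.mem_nhds hr] with x hx using g1 x hx
  have hle : 𝓝[>] (0:ℝ) ≤ 𝓝[Ico 0 R] 0 := by
    have : 𝓝[>] (0:ℝ) = 𝓝[Ioo 0 R] 0 := (nhdsWithin_Ioo_eq_nhdsGT hR).symm
    rw [this]
    exact nhdsWithin_mono _ Ioo_subset_Ico_self
  -- second derivative
  have t2 : Tendsto (deriv (deriv v)) (𝓝[>] 0) (𝓝 a) := by
    have hc := h.contDiffOn.continuousOn_iteratedDerivWithin (m := 2) (by norm_num) hI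
    have h3 := hc 0 h0
    unfold ContinuousWithinAt at h3
    rw [h.deriv_two, e2] at h3
    refine (h3.mono_left hle).congr' ?_
    filter_upwards [hmem] with r hr using (g2 r hr).symm
  have t1 : Tendsto (fun r => 3 / r * deriv v r) (𝓝[>] 0) (𝓝 (3 * a)) := by
    have hdw : HasDerivWithinAt d1 a (Ico 0 R) 0 := by
      have h4 := h.contDiffOn.differentiableOn_iteratedDerivWithin (m := 1) (by norm_num) hI 0 h0
      rw [e1] at h4
      have h5 := h4.hasDerivWithinAt
      rwa [← e2, h.deriv_two] at h5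
    have h6 := hasDerivWithinAt_iff_tendsto_slope.1 hdw
    have hle2 : 𝓝[>] (0:ℝ) ≤ 𝓝[Ico 0 R \ {0}] 0 := by
      have : 𝓝[>] (0:ℝ) = 𝓝[Ioo 0 R] 0 := (nhdsWithin_Ioo_eq_nhdsGT hR).symm
      rw [this]
      exact nhdsWithin_mono _ fun x hx => ⟨Ioo_subset_Ico_self hx, hx.1.ne'⟩
    have h7 := (h6.mono_left hle2).const_mul 3
    refine h7.congr' ?_
    filter_upwards [hmem] with r hr
    have hd0 : d1 0 = 0 := by rw [← e1, h.deriv_one]
    rw [slope_def_field, hd0, g1 r hr]
    field_simp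
    ring
  have := t2.add t1
  unfold radialLaplacian
  convert this using 2
  ring

end IsSolution

/-- local uniqueness -/
lemma unique {a R : ℝ} {v E W U : ℝ → ℝ} (hU : IntSol a E W U) (hR : 0 < R)
    (h : IsSolution (Ico 0 R) a v) : EqOn v U (Ico 0 R) := by
  -- it is enough to work on smaller intervals
  have key : ∀ R', 0 < R' → R' < R → ∀ r ∈ Ico 0 R', v r = U r := by
    intro R' hR' hR'R
    set v' : ℝ → ℝ := fun x => v (max 0 (min x R')) with hv'
    have hv'c : Continuous v' := by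
      have h1 : ContinuousOn v (Icc 0 R') :=
        h.contDiffOn.continuousOn.mono fun x hx => ⟨hx.1, hx.2.trans_lt hR'R⟩
      have h2 : Continuous fun x : ℝ => max 0 (min x R') := by fun_prop
      exact h1.comp_continuous h2 fun x =>
        ⟨le_max_left _ _, max_le hR'.le (min_le_right _ _)⟩
    have hvv' : ∀ x ∈ Icc 0 R', v' x = v x := by
      intro x hx
      simp only [hv']
      rw [min_eq_left hx.2, max_eq_right hx.1]
    set E' : ℝ → ℝ := fun x => Real.exp (4 * v' x) with hE'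
    have hE'c : Continuous E' := by fun_prop
    set W' : ℝ → ℝ := fun r => 4 * a - 6 * K E' r with hW'
    set U' : ℝ → ℝ := K W' with hU'
    have hW'd : ∀ r, HasDerivAt W' (-6 * (r * A 0 E' r)) r := by
      intro r
      have := ((K_hasDerivAt hE'c r).const_mul 6).const_sub (4 * a)
      refine this.congr_deriv ?_
      ring
    have hW'dd : ∀ r, HasDerivAt (fun r => -6 * (r * A 0 E' r)) (-6 * (E' r - 3 * A 0 E' r)) r :=
      fun r => (rA_hasDerivAt hE'c r).const_mul (-6)
    have hW'c : Continuous W' := continuous_iff_continuousAt.2 fun r => (hW'd r).continuousAt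
    have hsub : ∀ r ∈ Ioo 0 R', r ∈ Ioo 0 R := fun r hr => ⟨hr.1, hr.2.trans hR'R⟩
    have hw : ∀ r ∈ Ioo 0 R', radialLaplacian v r - W' r = 0 := by
      apply liouville hR' (y := fun r => radialLaplacian v r - W' r)
        (y' := fun r => deriv (radialLaplacian v) r - -6 * (r * A 0 E' r))
        (y'' := fun r => deriv (deriv (radialLaplacian v)) r - -6 * (E' r - 3 * A 0 E' r))
      · intro r hr
        exact (h.lap_hasDerivAt (hsub r hr)).sub (hW'd r)
      · intro r hr
        exact (h.lap_hasDerivAt' (hsub r hr)).sub (hW'dd r)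
      · intro r hr
        have h3 := h.eqn r ⟨hr.1.le, (hsub r hr).2⟩ hr.1
        unfold radialLaplacian at h3 ⊢
        have h4 : E' r = Real.exp (4 * v r) := by
          simp only [hE']
          rw [hvv' r ⟨hr.1.le, hr.2.le⟩]
        rw [h4]
        have hr0 : r ≠ 0 := hr.1.ne'
        rw [← sub_eq_zero] at h3
        rw [← h3]
        field_simp
        ring
      · have h3 := h.lap_tendsto hR
        have h4 : Tendsto W' (𝓝[>] 0) (𝓝 (W' 0)) :=
          (hW'c.tendsto 0).mono_left nhdsWithin_le_nhds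
        have h5 : W' 0 = 4 * a := by
          simp only [hW', K_zero]
          ring
        rw [h5] at h4
        simpa using h3.sub h4
    have hv : ∀ r ∈ Ioo 0 R', v r - U' r = 0 := by
      apply liouville hR' (y := fun r => v r - U' r)
        (y' := fun r => deriv v r - r * A 0 W' r)
        (y'' := fun r => deriv (deriv v) r - (W' r - 3 * A 0 W' r))
      · intro r hr
        exact (h.hasDerivAt₁ (hsub r hr)).sub (K_hasDerivAt hW'c r)
      · intro r hr
        exact (h.hasDerivAt₂ (hsub r hr)).sub (rA_hasDerivAt hW'c r)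
      · intro r hr
        have h3 := hw r hr
        unfold radialLaplacian at h3
        have hr0 : r ≠ 0 := hr.1.ne'
        rw [← h3]
        field_simp
        ring
      · have hle : 𝓝[>] (0:ℝ) ≤ 𝓝[Ico 0 R] 0 := by
          have : 𝓝[>] (0:ℝ) = 𝓝[Ioo 0 R] 0 := (nhdsWithin_Ioo_eq_nhdsGT hR).symm
          rw [this]
          exact nhdsWithin_mono _ Ioo_subset_Ico_self
        have h3 : Tendsto v (𝓝[>] 0) (𝓝 (v 0)) :=
          (h.contDiffOn.continuousOn 0 ⟨le_rfl, hR⟩).mono_left hle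
        have h4 : Tendsto U' (𝓝[>] 0) (𝓝 (U' 0)) :=
          ((K_continuous hW'c).tendsto 0).mono_left nhdsWithin_le_nhds
        have h5 := h3.sub h4
        rw [h.value, hU', K_zero, sub_zero] at h5
        exact h5
    have hvU' : ∀ r ∈ Ico 0 R', v r = U' r := by
      intro r hr
      rcases hr.1.eq_or_lt with h0 | h0
      · rw [← h0, h.value, hU', K_zero]
      · have := hv r ⟨h0, hr.2⟩
        linarith
    intro r hr
    rw [hvU' r hr]
    refine int_unique (R := r) hr.1 hE'c hU.hE (fun r => rfl) hU.hW (fun r => rfl) hU.hU ?_ ?_ r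
      ⟨hr.1, le_rfl⟩
    · intro q hq
      have hq' : q ∈ Ico 0 R' := ⟨hq.1, hq.2.trans_lt hr.2⟩
      change E' q = Real.exp (4 * U' q)
      rw [← hvU' q hq', hE']
      simp only
      rw [hvv' q ⟨hq'.1, hq'.2.le⟩]
    · intro q hq
      exact hU.hEU q hq.1
  intro r hr
  obtain ⟨R', h1, h2⟩ := exists_between hr.2
  exact key R' (hr.1.trans_lt h1) h2 r ⟨hr.1, h1⟩


namespace IntSol

variable {a : ℝ} {E W U : ℝ → ℝ}

lemma E_pos (h : IntSol a E W U) {r : ℝ} (hr : 0 ≤ r) : 0 < E r := by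
  rw [h.hEU r hr]
  exact Real.exp_pos _

lemma U_form (h : IntSol a E W U) (r : ℝ) : U r = a * r ^ 2 / 2 - 6 * K (K E) r := by
  rw [h.hU, h.W_eq, K_sub continuous_const
      ((K_continuous h.hE).const_mul 6 |>.congr fun x => rfl), K_const, K_const_mul]
  ring

lemma U_le (h : IntSol a E W U) {r : ℝ} (hr : 0 ≤ r) : U r ≤ a * r ^ 2 / 2 := by
  rw [h.U_form r]
  have h1 : 0 ≤ K (K E) r := K_nonneg hr fun q hq => K_nonneg hq.1 fun p hp =>
    (h.E_pos hp.1).le
  linarith

lemma U_cont (h : IntSol a E W U) : Continuous U := h.U_contDiff.continuous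

/-- the scalar curvature type quantity becomes negative. -/
lemma exists_neg (h : IntSol a E W U) : ∃ r₀, 0 < r₀ ∧ W r₀ < 0 := by
  by_contra hcon
  push Not at hcon
  have hW0 : ∀ r, 0 ≤ r → 0 ≤ W r := by
    intro r hr
    rcases hr.eq_or_lt with h0 | h0
    · -- by continuity
      rw [← h0]
      have h1 : Tendsto W (𝓝[>] 0) (𝓝 (W 0)) := (h.W_cont.tendsto 0).mono_left nhdsWithin_le_nhds
      exact ge_of_tendsto h1 (by filter_upwards [self_mem_nhdsWithin] with x hx using hcon x hx)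
    · exact hcon r h0
  have hE1 : ∀ r, 0 ≤ r → 1 ≤ E r := by
    intro r hr
    rw [h.hEU r hr]
    apply Real.one_le_exp
    have : 0 ≤ U r := by
      rw [h.hU]
      exact K_nonneg hr fun s hs => hW0 s hs.1
    linarith
  set R := |a| + 3 with hR
  have hR0 : 0 < R := by positivity
  have h2 : K (fun _ => (1:ℝ)) R ≤ K E R :=
    K_mono continuous_const h.hE hR0.le fun s hs => hE1 s hs.1
  rw [K_const] at h2
  have h3 := hW0 R hR0.le
  rw [h.hW] at h3
  have h4 : R ^ 2 ≥ 3 * R := by nlinarith [abs_nonneg a]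
  have h5 := le_abs_self a
  have h6 : R ^ 2 = (|a| + 3) ^ 2 := by rw [hR]
  nlinarith [abs_nonneg a, sq_nonneg (|a|)]

lemma W_anti (h : IntSol a E W U) {p q : ℝ} (hp : 0 ≤ p) (hpq : p ≤ q) : W q ≤ W p := by
  have : AntitoneOn W (Ici 0) := by
    apply antitoneOn_of_deriv_nonpos (convex_Ici 0) h.W_cont.continuousOn
      (fun x _ => (h.W_hasDerivAt x).differentiableAt.differentiableWithinAt)
    intro x hx
    rw [interior_Ici] at hx
    rw [h.deriv_W]
    have : 0 ≤ A 0 E x := A_nonneg (le_of_lt hx) fun s hs => (h.E_pos hs.1).le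
    have : 0 ≤ x * A 0 E x := mul_nonneg (le_of_lt hx) this
    simp only
    linarith
  exact this hp (hp.trans hpq) hpq

/-- quadratic decay -/
lemma exists_decay (h : IntSol a E W U) :
    ∃ C c : ℝ, 0 < c ∧ ∀ r, 0 ≤ r → 4 * U r ≤ C - c * r ^ 2 := by
  obtain ⟨r₀, hr₀, hneg⟩ := h.exists_neg
  set η := -W r₀ with hη
  have hη0 : 0 < η := by linarith
  -- bound of the flux
  have hcW : Continuous fun t => t ^ 3 * W t := by
    have := h.W_cont
    fun_prop
  set C₀ := |∫ t in (0:ℝ)..r₀, t ^ 3 * W t| + η * r₀ ^ 4 / 4 with hC₀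
  have hC₀' : 0 ≤ C₀ := by positivity
  have hflux : ∀ r, r₀ ≤ r → r ^ 4 * A 0 W r ≤ C₀ - η * r ^ 4 / 4 := by
    intro r hr
    have hr' : 0 < r := hr₀.trans_le hr
    rw [A_eq hr'.ne']
    have e1 : ∫ t in (0:ℝ)..r, t ^ 3 * W t =
        (∫ t in (0:ℝ)..r₀, t ^ 3 * W t) + ∫ t in r₀..r, t ^ 3 * W t :=
      (intervalIntegral.integral_add_adjacent_intervals (hcW.intervalIntegrable _ _)
        (hcW.intervalIntegrable _ _)).symm
    have e2 : ∫ t in r₀..r, t ^ 3 * W t ≤ ∫ t in r₀..r, t ^ 3 * (-η) := by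
      refine intervalIntegral.integral_mono_on hr (hcW.intervalIntegrable _ _)
        ((by fun_prop : Continuous fun t : ℝ => t ^ 3 * (-η)).intervalIntegrable _ _) ?_
      intro t ht
      have h1 : W t ≤ -η := by
        have := h.W_anti hr₀.le ht.1
        linarith
      have h2 : 0 ≤ t ^ 3 := pow_nonneg (hr₀.le.trans ht.1) 3
      exact mul_le_mul_of_nonneg_left h1 h2
    have e3 : ∫ t in r₀..r, t ^ 3 * (-η) = -η * (r ^ 4 - r₀ ^ 4) / 4 := by
      rw [intervalIntegral.integral_mul_const, integral_pow]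
      norm_num
      ring
    have e4 : r ^ 4 * ((r ^ 4)⁻¹ * ∫ t in (0:ℝ)..r, t ^ 3 * W t) = ∫ t in (0:ℝ)..r, t ^ 3 * W t := by
      field_simp
    rw [e4, e1]
    have e5 := le_abs_self (∫ t in (0:ℝ)..r₀, t ^ 3 * W t)
    rw [e3] at e2
    rw [hC₀]
    linarith
  -- compare with an explicit function
  set r₁ := max r₀ 1 with hr₁
  have hr₁0 : 0 < r₁ := hr₀.trans_le (le_max_left _ _)
  have hcomp : ∀ r, r₁ ≤ r → U r ≤ U r₁ + C₀ * (r - r₁) - η / 8 * (r ^ 2 - r₁ ^ 2) := by
    intro r hr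
    have hanti : AntitoneOn (fun r => U r - (C₀ * r - η / 8 * r ^ 2)) (Ici r₁) := by
      have hder : ∀ x, HasDerivAt (fun r => U r - (C₀ * r - η / 8 * r ^ 2))
          (x * A 0 W x - (C₀ - η / 8 * (2 * x))) x := by
        intro x
        have h1 : HasDerivAt (fun r : ℝ => C₀ * r - η / 8 * r ^ 2) (C₀ - η / 8 * (2 * x)) x := by
          have := ((hasDerivAt_id x).const_mul C₀).sub ((hasDerivAt_pow 2 x).const_mul (η / 8))
          exact this.congr_deriv (by push_cast; ring)
        exact (h.U_hasDerivAt x).sub h1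
      apply antitoneOn_of_deriv_nonpos (convex_Ici r₁)
        (continuous_iff_continuousAt.2 fun x => (hder x).continuousAt).continuousOn
        (fun x _ => (hder x).differentiableAt.differentiableWithinAt)
      intro x hx
      rw [interior_Ici] at hx
      rw [(hder x).deriv]
      have hx1 : 1 ≤ x := (le_max_right _ _).trans (le_of_lt hx)
      have hx0 : r₀ ≤ x := (le_max_left _ _).trans (le_of_lt hx)
      have h1 := hflux x hx0
      have hxpos : 0 < x := by linarith
      have h2 : x * A 0 W x * x ^ 3 ≤ (C₀ - η * x / 4) * x ^ 3 := by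
        have h3 : C₀ ≤ C₀ * x ^ 3 := le_mul_of_one_le_right hC₀' (one_le_pow₀ hx1)
        nlinarith
      have h4 := le_of_mul_le_mul_right h2 (by positivity)
      linarith
    have := hanti (mem_Ici.2 le_rfl) (mem_Ici.2 hr) hr
    simp only at this
    linarith
  refine ⟨4 * (|U r₁| + 4 * C₀ ^ 2 / η + η * r₁ ^ 2) + 2 * |a| * r₁ ^ 2, η / 4, by positivity, ?_⟩
  intro r hr
  by_cases hrr : r₁ ≤ r
  · have h1 := hcomp r hrr
    have h2 := le_abs_self (U r₁)
    have h3 : C₀ * r ≤ η / 16 * r ^ 2 + 4 * C₀ ^ 2 / η := by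
      have : 0 ≤ (η * r - 8 * C₀) ^ 2 / (16 * η) := by positivity
      have e : (η * r - 8 * C₀) ^ 2 / (16 * η) = η / 16 * r ^ 2 - C₀ * r + 4 * C₀ ^ 2 / η := by
        field_simp
        ring
      linarith
    have h4 : 0 ≤ C₀ * r₁ := by positivity
    have h5 : 0 ≤ 2 * |a| * r₁ ^ 2 := by positivity
    have h6 : 0 ≤ η * r₁ ^ 2 := by positivity
    nlinarith
  · push Not at hrr
    have h1 := h.U_le hr
    have h2 : a * r ^ 2 / 2 ≤ |a| * r₁ ^ 2 / 2 := by
      have := le_abs_self a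
      have h3 : r ^ 2 ≤ r₁ ^ 2 := by gcongr
      have h4 : a * r ^ 2 ≤ |a| * r ^ 2 := by gcongr
      have h5 : |a| * r ^ 2 ≤ |a| * r₁ ^ 2 := by gcongr
      linarith
    have h3 : r ^ 2 ≤ r₁ ^ 2 := by gcongr
    have h6 : η / 4 * r ^ 2 ≤ η * r₁ ^ 2 := by nlinarith
    have h7 : 0 ≤ 4 * C₀ ^ 2 / η := by positivity
    have h8 := abs_nonneg (U r₁)
    nlinarith [sq_nonneg r₁]

lemma integrableOn (h : IntSol a E W U) :
    IntegrableOn (fun y : ℝ => y ^ 3 * Real.exp (4 * U y)) (Ioi 0) := by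
  obtain ⟨C, c, hc, hdec⟩ := h.exists_decay
  have h1 : IntegrableOn (fun y : ℝ => Real.exp C * (y ^ (3:ℝ) * Real.exp (-c * y ^ 2))) (Ioi 0) :=
    (integrableOn_rpow_mul_exp_neg_mul_sq hc (s := 3) (by norm_num)).const_mul _
  have hUc := h.U_cont
  refine Integrable.mono' h1
    ((by fun_prop : Continuous fun y : ℝ => y ^ 3 * Real.exp (4 * U y)).aestronglyMeasurable) ?_
  filter_upwards [ae_restrict_mem measurableSet_Ioi] with y hy
  have hy0 : (0:ℝ) < y := hy
  have h2 := hdec y hy0.le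
  rw [Real.norm_eq_abs, abs_of_nonneg (by positivity)]
  have h3 : Real.exp (4 * U y) ≤ Real.exp C * Real.exp (-c * y ^ 2) := by
    rw [← Real.exp_add]
    apply Real.exp_le_exp.2
    linarith
  have h4 : y ^ (3:ℝ) = y ^ 3 := by norm_cast
  rw [h4]
  calc y ^ 3 * Real.exp (4 * U y) ≤ y ^ 3 * (Real.exp C * Real.exp (-c * y ^ 2)) := by gcongr
    _ = _ := by ring

lemma integrable_vol (h : IntSol a E W U) :
    Integrable (fun x : EuclideanSpace ℝ (Fin 4) => Real.exp (4 * U ‖x‖)) := by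
  have := (integrable_fun_norm_addHaar (E := EuclideanSpace ℝ (Fin 4)) (μ := volume)
    (f := fun y => Real.exp (4 * U y))).2
  apply this
  simpa using h.integrableOn

lemma confVolume_eq (h : IntSol a E W U) : confVolume U =
    ENNReal.ofReal (4 * (volume.real (Metric.ball (0 : EuclideanSpace ℝ (Fin 4)) 1) *
      ∫ y in Ioi (0:ℝ), y ^ 3 * Real.exp (4 * U y))) := by
  unfold confVolume
  rw [← ofReal_integral_eq_lintegral_ofReal h.integrable_vol
    (Eventually.of_forall fun x => (Real.exp_pos _).le)]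
  rw [integral_fun_norm_addHaar (E := EuclideanSpace ℝ (Fin 4)) (μ := volume)
    (f := fun y => Real.exp (4 * U y))]
  simp

lemma confVolume_lt_top (h : IntSol a E W U) : confVolume U < ⊤ := by
  rw [h.confVolume_eq]
  exact ENNReal.ofReal_lt_top

lemma mass_ge (h : IntSol a E W U) {r : ℝ} (hr : 0 ≤ r) :
    (∫ t in (0:ℝ)..r, t ^ 3 * E t) ≤ ∫ y in Ioi (0:ℝ), y ^ 3 * Real.exp (4 * U y) := by
  rw [intervalIntegral.integral_of_le hr]
  have h1 : ∫ t in Ioc 0 r, t ^ 3 * E t = ∫ t in Ioc 0 r, t ^ 3 * Real.exp (4 * U t) := by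
    apply setIntegral_congr_fun measurableSet_Ioc
    intro t ht
    simp only
    rw [h.hEU t ht.1.le]
  rw [h1]
  apply setIntegral_mono_set h.integrableOn
  · filter_upwards [ae_restrict_mem measurableSet_Ioi] with y hy
    have hy0 : (0:ℝ) < y := hy
    positivity
  · exact (Ioc_subset_Ioi_self).eventuallyLE

/-- the key lower bound. -/
lemma mass_lower (h : IntSol a E W U) (ha : 2 ≤ a) :
    Real.log a / 2 ≤ ∫ y in Ioi (0:ℝ), y ^ 3 * Real.exp (4 * U y) := by
  obtain ⟨r₀, hr₀, hneg⟩ := h.exists_neg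
  set m := ∫ y in Ioi (0:ℝ), y ^ 3 * Real.exp (4 * U y) with hm
  have hm0 : 0 ≤ m := by
    apply setIntegral_nonneg measurableSet_Ioi
    intro y hy
    have hy0 : (0:ℝ) < y := hy
    positivity
  have hlog : 0 < Real.log a := Real.log_pos (by linarith)
  set s₀ := Real.sqrt (Real.log a / (2 * a)) with hs₀
  have hs₀2 : s₀ ^ 2 = Real.log a / (2 * a) := Real.sq_sqrt (by positivity)
  have hs₀0 : 0 < s₀ := Real.sqrt_pos.2 (by positivity)
  have hAc := A_continuous h.hE 0
  have hqc : Continuous fun q => q * A 0 E q := by fun_prop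
  -- inner part
  have hin : ∀ q, 0 ≤ q → q * A 0 E q ≤ q * Real.exp (2 * a * q ^ 2) / 4 := by
    intro q hq
    have h1 : A 0 E q ≤ A 0 (fun _ => Real.exp (2 * a * q ^ 2)) q := by
      apply A_mono h.hE continuous_const hq
      intro s hs
      rw [h.hEU s hs.1]
      apply Real.exp_le_exp.2
      have h2 := h.U_le hs.1
      have h3 : s ^ 2 ≤ q ^ 2 := pow_le_pow_left₀ hs.1 hs.2 2
      nlinarith
    rw [A_const] at h1
    calc q * A 0 E q ≤ q * (Real.exp (2 * a * q ^ 2) / 4) := mul_le_mul_of_nonneg_left h1 hq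
      _ = _ := by ring
  have hinner : ∀ r, 0 ≤ r → r ≤ s₀ → ∫ q in (0:ℝ)..r, q * A 0 E q ≤ 1 / 16 := by
    intro r hr hrs
    have hder : ∀ x : ℝ, HasDerivAt (fun q => Real.exp (2 * a * q ^ 2) / (16 * a))
        (x * Real.exp (2 * a * x ^ 2) / 4) x := by
      intro x
      have h1 : HasDerivAt (fun q : ℝ => 2 * a * q ^ 2) (2 * a * (2 * x)) x := by
        simpa using (hasDerivAt_pow 2 x).const_mul (2 * a)
      have h2 := h1.exp.div_const (16 * a)
      refine h2.congr_deriv ?_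
      field_simp
      ring
    have hc2 : Continuous fun q : ℝ => q * Real.exp (2 * a * q ^ 2) / 4 := by fun_prop
    calc ∫ q in (0:ℝ)..r, q * A 0 E q ≤ ∫ q in (0:ℝ)..r, q * Real.exp (2 * a * q ^ 2) / 4 :=
          intervalIntegral.integral_mono_on hr (hqc.intervalIntegrable _ _)
            (hc2.intervalIntegrable _ _) fun q hq => hin q hq.1
      _ = Real.exp (2 * a * r ^ 2) / (16 * a) - Real.exp (2 * a * 0 ^ 2) / (16 * a) :=
          intervalIntegral.integral_eq_sub_of_hasDerivAt (fun x _ => hder x)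
            (hc2.intervalIntegrable _ _)
      _ ≤ Real.exp (2 * a * s₀ ^ 2) / (16 * a) := by
          have h1 : Real.exp (2 * a * r ^ 2) ≤ Real.exp (2 * a * s₀ ^ 2) := by
            apply Real.exp_le_exp.2
            have h3 : r ^ 2 ≤ s₀ ^ 2 := pow_le_pow_left₀ hr hrs 2
            nlinarith
          have h2 : 0 ≤ Real.exp (2 * a * 0 ^ 2) / (16 * a) := by positivity
          have h3 : Real.exp (2 * a * r ^ 2) / (16 * a) ≤ Real.exp (2 * a * s₀ ^ 2) / (16 * a) := by
            gcongr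
          linarith
      _ = 1 / 16 := by
          have : 2 * a * s₀ ^ 2 = Real.log a := by
            rw [hs₀2]
            field_simp
          rw [this, Real.exp_log (by linarith)]
          field_simp
  have hW0 : 4 * a < 6 * ∫ q in (0:ℝ)..r₀, q * A 0 E q := by
    have := h.hW r₀
    unfold K at this
    linarith
  rcases le_total r₀ s₀ with hcase | hcase
  · exfalso
    have := hinner r₀ hr₀.le hcase
    linarith
  · -- outer part
    have hout : ∫ q in s₀..r₀, q * A 0 E q ≤ m / (2 * s₀ ^ 2) := by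
      have hder : ∀ x : ℝ, x ≠ 0 → HasDerivAt (fun q : ℝ => -m / 2 * (q ^ 2)⁻¹)
          (m * (x ^ 3)⁻¹) x := by
        intro x hx
        have h3 := ((hasDerivAt_pow 2 x).inv (pow_ne_zero 2 hx)).const_mul (-m / 2)
        refine h3.congr_deriv ?_
        push_cast
        field_simp
      have hci : ContinuousOn (fun q : ℝ => m * (q ^ 3)⁻¹) (uIcc s₀ r₀) := by
        rw [uIcc_of_le hcase]
        refine continuousOn_const.mul (ContinuousOn.inv₀ (by fun_prop) ?_)
        intro x hx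
        exact pow_ne_zero 3 (hs₀0.trans_le hx.1).ne'
      calc ∫ q in s₀..r₀, q * A 0 E q ≤ ∫ q in s₀..r₀, m * (q ^ 3)⁻¹ := by
            refine intervalIntegral.integral_mono_on hcase (hqc.intervalIntegrable _ _)
              hci.intervalIntegrable ?_
            intro q hq
            have hq0 : 0 < q := hs₀0.trans_le hq.1
            rw [A_eq hq0.ne']
            have h1 := h.mass_ge hq0.le
            calc q * ((q ^ 4)⁻¹ * ∫ t in (0:ℝ)..q, t ^ 3 * E t)
                = (q ^ 3)⁻¹ * ∫ t in (0:ℝ)..q, t ^ 3 * E t := by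
                  field_simp
              _ ≤ (q ^ 3)⁻¹ * m := by gcongr
              _ = m * (q ^ 3)⁻¹ := mul_comm _ _
        _ = -m / 2 * (r₀ ^ 2)⁻¹ - -m / 2 * (s₀ ^ 2)⁻¹ := by
            apply intervalIntegral.integral_eq_sub_of_hasDerivAt _ hci.intervalIntegrable
            intro x hx
            rw [uIcc_of_le hcase] at hx
            exact hder x (hs₀0.trans_le hx.1).ne'
        _ ≤ m / (2 * s₀ ^ 2) := by
            have : 0 ≤ m / 2 * (r₀ ^ 2)⁻¹ := by positivity
            have e : m / (2 * s₀ ^ 2) = m / 2 * (s₀ ^ 2)⁻¹ := by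
              field_simp
            rw [e]
            linarith
    have hsplit : ∫ q in (0:ℝ)..r₀, q * A 0 E q =
        (∫ q in (0:ℝ)..s₀, q * A 0 E q) + ∫ q in s₀..r₀, q * A 0 E q :=
      (intervalIntegral.integral_add_adjacent_intervals (hqc.intervalIntegrable _ _)
        (hqc.intervalIntegrable _ _)).symm
    have h1 := hinner s₀ hs₀0.le le_rfl
    rw [hsplit] at hW0
    have h2 : m / (2 * s₀ ^ 2) = m * a / Real.log a := by
      rw [hs₀2]
      field_simp
    rw [h2] at hout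
    have h3 : 3 * a < 6 * (m * a / Real.log a) := by linarith
    have h4 : 3 * a * Real.log a < 6 * (m * a) := by
      have := mul_lt_mul_of_pos_right h3 hlog
      have e : 6 * (m * a / Real.log a) * Real.log a = 6 * (m * a) := by
        field_simp
      rwa [e] at this
    have h5 : a * (Real.log a / 2) ≤ a * m := by linarith
    exact le_of_mul_le_mul_left h5 (by linarith)

end IntSol

/-- A solution on `[0, ∞)` restricts to a solution on `[0, R)`. -/
lemma IsSolution.restrict {a R : ℝ} {v : ℝ → ℝ} (h : IsSolution (Ici 0) a v) (hR : 0 < R) :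
    IsSolution (Ico 0 R) a v := by
  have hset : (Ico 0 R : Set ℝ) =ᶠ[𝓝 0] Ici 0 := by
    filter_upwards [Iio_mem_nhds hR] with x hx
    apply propext
    constructor
    · intro h1
      exact h1.1
    · intro h1
      exact ⟨h1, hx⟩
  have hk : ∀ k, iteratedDerivWithin k v (Ico 0 R) 0 = iteratedDerivWithin k v (Ici 0) 0 := by
    intro k
    rw [iteratedDerivWithin_eq_iteratedFDerivWithin, iteratedDerivWithin_eq_iteratedFDerivWithin,
      iteratedFDerivWithin_congr_set hset]
  refine ⟨h.contDiffOn.mono Ico_subset_Ici_self, fun r hr hr0 => h.eqn r hr.1 hr0, h.value, ?_, ?_,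
    ?_⟩
  · rw [hk, h.deriv_one]
  · rw [hk, h.deriv_two]
  · rw [hk, h.deriv_three]

/-- **Q1, affirmative answer.** For every real `a` the radial solution `u_a` exists on all of
`[0, ∞)`, is unique (also locally, on every `[0, R)`), has finite volume, and the volume tends to
`+∞` as `a → +∞`. -/
theorem result :
    ∃ u : ℝ → ℝ → ℝ,
      (∀ a, IsSolution (Ici 0) a (u a)) ∧
      (∀ a v, IsSolution (Ici 0) a v → EqOn v (u a) (Ici 0)) ∧
      (∀ a R v, 0 < R → IsSolution (Ico 0 R) a v → EqOn v (u a) (Ico 0 R)) ∧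
      (∀ a, confVolume (u a) < ⊤) ∧
      Tendsto (fun a => confVolume (u a)) atTop (𝓝 ⊤) := by
  choose E W U h using exists_intSol
  have hloc : ∀ a R v, 0 < R → IsSolution (Ico 0 R) a v → EqOn v (U a) (Ico 0 R) :=
    fun a R v hR hv => unique (h a) hR hv
  refine ⟨U, fun a => (h a).isSolution (uniqueDiffOn_Ici 0) self_mem_Ici, fun a v hv r hr => ?_,
    hloc, fun a => (h a).confVolume_lt_top, ?_⟩
  · have hr' : (0:ℝ) ≤ r := hr
    exact hloc a (r + 1) v (by linarith) (hv.restrict (by linarith)) ⟨hr', by linarith⟩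
  set β := volume.real (Metric.ball (0 : EuclideanSpace ℝ (Fin 4)) 1) with hβ
  have hβ0 : 0 < β := by
    rw [hβ, Measure.real, ENNReal.toReal_pos_iff]
    exact ⟨Metric.measure_ball_pos _ _ one_pos, measure_ball_lt_top⟩
  have h1 : Tendsto (fun a : ℝ => ENNReal.ofReal (4 * (β * (Real.log a / 2)))) atTop (𝓝 ⊤) := by
    apply ENNReal.tendsto_ofReal_atTop.comp
    apply Tendsto.const_mul_atTop (by norm_num)
    apply Tendsto.const_mul_atTop hβ0
    exact Real.tendsto_log_atTop.atTop_div_const two_pos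
  refine tendsto_nhds_top_mono h1 ?_
  filter_upwards [eventually_ge_atTop 2] with a ha
  rw [(h a).confVolume_eq]
  apply ENNReal.ofReal_le_ofReal
  have := (h a).mass_lower ha
  gcongr

end Pool.Agent.Results.MP_6d9676_an.VolumeInfinity
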